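import Mathlib

set_option autoImplicit false

namespace Pool.Agent.H.MP_f6b51f_lc

inductive Tm (B : Type) where
  | atom (b : B) | delta | add (p q : Tm B) | mul (p q : Tm B) | star (p q : Tm B)

open Tm
variable {A B C : Type}

def Tm.bind (f : B → Tm C) : Tm B → Tm C
  | atom b => f b
  | delta => delta
  | add p q => add (p.bind f) (q.bind f)
  | mul p q => mul (p.bind f) (q.bind f)
  | star p q => star (p.bind f) (q.bind f)

def Tm.atoms : Tm B → Set B
  | atom b => {b}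
  | delta => ∅
  | add p q => p.atoms ∪ q.atoms
  | mul p q => p.atoms ∪ q.atoms
  | star p q => p.atoms ∪ q.atoms

def seq : Option (Tm B) → Tm B → Tm B
  | none, q => q
  | some p, q => mul p q

inductive Step : Tm B → B → Option (Tm B) → Prop
  | atom (b : B) : Step (atom b) b none
  | addL {p q : Tm B} {b : B} {o : Option (Tm B)} : Step p b o → Step (add p q) b o
  | addR {p q : Tm B} {b : B} {o : Option (Tm B)} : Step q b o → Step (add p q) b o
  | mul {p q : Tm B} {b : B} {o : Option (Tm B)} : Step p b o → Step (mul p q) b (some (seq o q))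
  | starL {p q : Tm B} {b : B} {o : Option (Tm B)} : Step p b o → Step (star p q) b (some (seq o (star p q)))
  | starR {p q : Tm B} {b : B} {o : Option (Tm B)} : Step q b o → Step (star p q) b o

def Bisim (p q : Tm A) : Prop := ∃ R : Tm A → Tm A → Prop, (∀ x y, R x y → R y x) ∧
  (∀ x y, R x y → (∀ a x', Step x a (some x') → ∃ y', Step y a (some y') ∧ R x' y') ∧
    ∀ a, Step x a none → Step y a none) ∧ R p q

def Valid (t u : Tm (A ⊕ ℕ)) : Prop :=
  ∀ σ : ℕ → Tm A, Bisim (t.bind (Sum.elim atom σ)) (u.bind (Sum.elim atom σ))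

inductive Deriv (E : Set (Tm (A ⊕ ℕ) × Tm (A ⊕ ℕ))) : Tm (A ⊕ ℕ) → Tm (A ⊕ ℕ) → Prop
  | ax {t u : Tm (A ⊕ ℕ)} (τ : ℕ → Tm (A ⊕ ℕ)) : (t, u) ∈ E →
      Deriv E (t.bind (Sum.elim (fun a => atom (.inl a)) τ)) (u.bind (Sum.elim (fun a => atom (.inl a)) τ))
  | refl (t : Tm (A ⊕ ℕ)) : Deriv E t t
  | symm {t u : Tm (A ⊕ ℕ)} : Deriv E t u → Deriv E u t
  | trans {t u w : Tm (A ⊕ ℕ)} : Deriv E t u → Deriv E u w → Deriv E t w
  | add {t u t' u' : Tm (A ⊕ ℕ)} : Deriv E t u → Deriv E t' u' → Deriv E (add t t') (add u u')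
  | mul {t u t' u' : Tm (A ⊕ ℕ)} : Deriv E t u → Deriv E t' u' → Deriv E (mul t t') (mul u u')
  | star {t u t' u' : Tm (A ⊕ ℕ)} : Deriv E t u → Deriv E t' u' → Deriv E (star t t') (star u u')

def Sim (R : Tm B → Tm B → Prop) : Prop :=
  (∀ x y, R x y → R y x) ∧ ∀ x y, R x y → ∀ a o, Step x a o → ∃ o', Step y a o' ∧ Option.Rel R o o'

theorem bisim_iff {p q : Tm A} : Bisim p q ↔ ∃ R, Sim R ∧ R p q := exists_congr fun R => by
  rw [Sim, and_assoc]
  refine and_congr_right' (and_congr_left' (forall₃_congr fun x y _ => ⟨fun h a o s => ?_, fun h =>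
    ⟨fun a x' s => ?_, fun a s => ?_⟩⟩))
  · cases o
    exacts [⟨_, h.2 a s, .none⟩, (h.1 a _ s).elim fun y' e => ⟨_, e.1, .some e.2⟩]
  all_goals obtain ⟨_, e, r⟩ := h a _ s; cases r
  exacts [⟨_, e, ‹_›⟩, e]

theorem Step.atoms {s : Tm B} {b : B} {o : Option (Tm B)} (h : Step s b o) :
    b ∈ s.atoms ∧ ∀ s', o = some s' → s'.atoms ⊆ s.atoms := by
  induction h with
  | atom => simp [Tm.atoms]
  | addL _ ih | addR _ ih | starR _ ih =>
    exact ⟨by simp [Tm.atoms, ih.1], fun s' e x c => by simp [Tm.atoms, ih.2 s' e c]⟩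
  | @mul p q b o _ ih | @starL p q b o _ ih =>
    refine ⟨.inl ih.1, ?_⟩
    rintro _ ⟨⟩ x c
    cases o with
    | none => simp_all [Tm.atoms, seq]
    | some p' => exact c.elim (fun c => .inl (ih.2 _ rfl c)) fun c => by simp_all [Tm.atoms]

def Cl (S : Set (Tm B)) : Prop := ∀ s ∈ S, ∀ b s', Step s b (some s') → s' ∈ S

theorem fin (t : Tm B) : ∃ S : Set (Tm B), S.Finite ∧ t ∈ S ∧ Cl S := by
  have m {S T : Set (Tm B)} {q} (h : Cl S) (hq : q ∈ T) (hT : (mul · q) '' S ⊆ T) {p b o} (hp : p ∈ S)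
      (s : Step p b o) : seq o q ∈ T := by
    cases o
    exacts [hq, hT ⟨_, h _ hp _ _ s, rfl⟩]
  induction t with
  | atom b => exact ⟨{atom b}, by simp, rfl, by rintro _ rfl _ _ ⟨⟩⟩
  | delta => exact ⟨{delta}, by simp, rfl, by rintro _ rfl _ _ ⟨⟩⟩
  | add p q hp hq =>
    obtain ⟨S, a, b, c⟩ := hp; obtain ⟨T, d, e, f⟩ := hq
    refine ⟨insert (add p q) (S ∪ T), (a.union d).insert _, .inl rfl, ?_⟩
    rintro s (rfl | h | h) x s' st
    · cases st
      exacts [.inr (.inl (c _ b _ _ ‹_›)), .inr (.inr (f _ e _ _ ‹_›))]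
    exacts [.inr (.inl (c _ h _ _ st)), .inr (.inr (f _ h _ _ st))]
  | mul p q hp hq =>
    obtain ⟨S, a, b, c⟩ := hp; obtain ⟨T, d, e, f⟩ := hq
    refine ⟨(mul · q) '' S ∪ T, (a.image _).union d, .inl ⟨_, b, rfl⟩, ?_⟩
    rintro s (⟨s, h, rfl⟩ | h) x s' st
    · cases st; exact m c (.inr e) Set.subset_union_left h ‹_›
    exact .inr (f _ h _ _ st)
  | star p q hp hq =>
    obtain ⟨S, a, b, c⟩ := hp; obtain ⟨T, d, e, f⟩ := hq
    refine ⟨insert (star p q) ((mul · (star p q)) '' S ∪ T), ((a.image _).union d).insert _, .inl rfl, ?_⟩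
    rintro s (rfl | ⟨s, h, rfl⟩ | h) x s' st
    · cases st
      exacts [m c (.inl rfl) (fun _ h => .inr (.inl h)) b ‹_›, .inr (.inr (f _ e _ _ ‹_›))]
    · cases st; exact m c (.inl rfl) (fun _ h => .inr (.inl h)) h ‹_›
    exact .inr (.inr (f _ h _ _ st))

inductive Cont (σ : B → Tm C) : Option (Tm B) → Option (Tm C) → Option (Tm C) → Prop
  | base (o : Option (Tm C)) : Cont σ none o o
  | step {o : Option (Tm B)} {x y : Option (Tm C)} (q : Tm B) : Cont σ o x y →
      Cont σ (some (seq o q)) x (some (seq y (q.bind σ)))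

variable {σ : B → Tm C}

theorem Cont.non {o : Option (Tm B)} {y : Option (Tm C)} (h : Cont σ o none y) : y = o.map (·.bind σ) := by
  generalize e : none = x at h
  induction h with
  | base => exact e.symm
  | @step o _ y q _ ih => rw [ih e]; cases o <;> rfl

theorem Cont.som {o : Option (Tm B)} {r : Tm C} {y : Option (Tm C)} (h : Cont σ o (some r) y) :
    ∃ q, y = some q ∧ (∀ b x, Step q b x → ∃ z, Step r b z ∧ Cont σ o z x) ∧
      ∀ b z, Step r b z → ∃ x, Step q b x ∧ Cont σ o z x := by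
  generalize e : some r = x at h
  induction h with
  | base => exact ⟨r, e.symm, fun _ _ s => ⟨_, s, .base _⟩, fun _ _ s => ⟨_, s, .base _⟩⟩
  | step q _ ih =>
    obtain ⟨q', rfl, a, b⟩ := ih e
    refine ⟨_, rfl, fun c x s => ?_, fun c z s => (b c z s).elim fun x e => ⟨_, .mul e.1, .step q e.2⟩⟩
    cases s
    exact (a _ _ ‹_›).elim fun z e => ⟨z, e.1, .step q e.2⟩

theorem bwd {s : Tm B} {c : C} {x : Option (Tm C)} (h : Step (s.bind σ) c x) :
    ∃ b o z, Step s b o ∧ Step (σ b) c z ∧ Cont σ o z x := by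
  induction s generalizing x with
  | atom b => exact ⟨b, _, _, .atom b, h, .base _⟩
  | delta => cases h
  | add p q hp hq =>
    cases h
    · obtain ⟨b, o, z, e, f⟩ := hp ‹_›; exact ⟨b, o, z, .addL e, f⟩
    · obtain ⟨b, o, z, e, f⟩ := hq ‹_›; exact ⟨b, o, z, .addR e, f⟩
  | mul p q hp hq =>
    cases h
    obtain ⟨b, o, z, e, f, g⟩ := hp ‹_›; exact ⟨b, _, z, .mul e, f, .step q g⟩
  | star p q hp hq =>
    cases h
    · obtain ⟨b, o, z, e, f, g⟩ := hp ‹_›; exact ⟨b, _, z, .starL e, f, .step (star p q) g⟩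
    · obtain ⟨b, o, z, e, f⟩ := hq ‹_›; exact ⟨b, o, z, .starR e, f⟩

theorem fwd {s : Tm B} {b : B} {o : Option (Tm B)} (h : Step s b o) {c : C} {z : Option (Tm C)}
    (e : Step (σ b) c z) : ∃ x, Step (s.bind σ) c x ∧ Cont σ o z x := by
  induction h with
  | atom b => exact ⟨_, e, .base _⟩
  | addL _ ih => exact (ih e).imp fun x f => ⟨.addL f.1, f.2⟩
  | addR _ ih => exact (ih e).imp fun x f => ⟨.addR f.1, f.2⟩
  | starR _ ih => exact (ih e).imp fun x f => ⟨.starR f.1, f.2⟩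
  | mul _ ih => exact (ih e).elim fun x f => ⟨_, .mul f.1, .step _ f.2⟩
  | @starL p q _ _ _ ih => exact (ih e).elim fun x f => ⟨_, .starL f.1, .step (star p q) f.2⟩

theorem sim_bind {R : Tm B → Tm B → Prop} (h : Sim R) {t u : Tm B} (r : R t u) (σ : B → Tm C) :
    Bisim (t.bind σ) (u.bind σ) := by
  let Q (x y : Option (Tm C)) := ∃ o o' z, Option.Rel R o o' ∧ Cont σ o z x ∧ Cont σ o' z y
  have rel {x y} (h : Q x y) : Option.Rel (fun p q => Q (some p) (some q)) x y := by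
    have ⟨o, o', z, a, b, c⟩ := h
    cases z with
    | none => cases b.non; cases c.non; cases a; exacts [.some h, .none]
    | some z => obtain ⟨_, rfl, -⟩ := b.som; obtain ⟨_, rfl, -⟩ := c.som; exact .some h
  refine bisim_iff.2 ⟨fun p q => Q (some p) (some q), ⟨fun p q ⟨o, o', z, a, b, c⟩ => ⟨o', o, z, ?_, c, b⟩,
    fun p q ⟨o, o', z, a, b, c⟩ d x s => ?_⟩, _, _, none, .some r, .step t (.base _), .step u (.base _)⟩
  · cases a; exacts [.some (h.1 _ _ ‹_›), .none]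
  cases z with
  | none =>
    have b := b.non; have c := c.non
    cases a with
    | none => cases b
    | some a =>
      cases b; cases c
      obtain ⟨β, o, z, e, f, g⟩ := bwd s
      obtain ⟨o', e', r⟩ := h.2 _ _ a _ _ e
      obtain ⟨y, s', g'⟩ := fwd e' f
      exact ⟨y, s', rel ⟨o, o', z, r, g, g'⟩⟩
  | some z =>
    obtain ⟨_, ⟨⟩, b, -⟩ := b.som; obtain ⟨_, ⟨⟩, -, c⟩ := c.som
    obtain ⟨w, e, g⟩ := b _ _ s
    obtain ⟨y, s', g'⟩ := c _ _ e
    exact ⟨y, s', rel ⟨o, o', w, a, g, g'⟩⟩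

end Pool.Agent.H.MP_f6b51f_lc
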