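import Pool.Agent.H.MP_f6b51f_lc.A

set_option autoImplicit false

namespace Pool.Agent.H.MP_f6b51f_lc
open Tm
variable {A B C : Type}

def Ch : ℕ → Tm B → Prop
  | 0, p => ∀ b o, ¬ Step p b o
  | j + 1, p => (∃ b o, Step p b o) ∧ ∀ b o, Step p b o → ∃ q, o = some q ∧ Ch j q

theorem Ch.uniq {i j : ℕ} {p : Tm B} (h : Ch i p) (h' : Ch j p) : i = j := by
  induction i generalizing j p with
  | zero => cases j; exacts [rfl, h'.1.elim fun _ ⟨_, s⟩ => (h _ _ s).elim]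
  | succ i ih =>
    obtain ⟨b, o, s⟩ := h.1
    cases j with
    | zero => exact (h' _ _ s).elim
    | succ j =>
      obtain ⟨q, rfl, e⟩ := h.2 _ _ s; obtain ⟨_, ⟨⟩, e'⟩ := h'.2 _ _ s
      rw [ih e e']

theorem Ch.sim {R : Tm B → Tm B → Prop} (hR : Sim R) {j : ℕ} {p q : Tm B} (r : R p q) (h : Ch j p) : Ch j q := by
  induction j generalizing p q with
  | zero => exact fun b o s => (hR.2 _ _ (hR.1 _ _ r) _ _ s).elim fun _ e => h _ _ e.1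
  | succ j ih =>
    obtain ⟨b, o, s⟩ := h.1
    refine ⟨(hR.2 _ _ r _ _ s).elim fun _ e => ⟨_, _, e.1⟩, fun b o s => ?_⟩
    obtain ⟨o', s', e⟩ := hR.2 _ _ (hR.1 _ _ r) _ _ s
    obtain ⟨q, rfl, c⟩ := h.2 _ _ s'
    cases e
    exact ⟨_, rfl, ih (hR.1 _ _ ‹_›) c⟩

theorem Ch.cont {σ : B → Tm C} {j : ℕ} {o : Option (Tm B)} {d : Tm C} {y : Option (Tm C)}
    (c : Cont σ o (some d) y) (h : Ch j d) : ∃ q, y = some q ∧ Ch j q := by
  induction j generalizing d y with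
  | zero =>
    obtain ⟨q, rfl, a, -⟩ := c.som
    exact ⟨q, rfl, fun b x s => (a b x s).elim fun z e => h _ _ e.1⟩
  | succ j ih =>
    obtain ⟨q, rfl, a, b⟩ := c.som
    obtain ⟨β, z, s⟩ := h.1
    refine ⟨q, rfl, (b _ _ s).elim fun x e => ⟨_, _, e.1⟩, fun β x s => ?_⟩
    obtain ⟨z, s', e⟩ := a _ _ s
    obtain ⟨d', rfl, c⟩ := h.2 _ _ s'
    exact ih e c

theorem inv {a b : A} {q : Tm A} {o : Option (Tm A)} (h : Step (mul (atom a) q) b o) : o = some q := by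
  cases h with | mul h => cases h; rfl

def D (a : A) : ℕ → Tm A
  | 0 => delta
  | j + 1 => mul (atom a) (D a j)

theorem ch_D (a : A) (j : ℕ) : Ch j (D a j) := by
  induction j with
  | zero => rintro _ _ ⟨⟩
  | succ j ih => exact ⟨⟨_, _, .mul (.atom a)⟩, fun _ _ h => ⟨_, inv h, ih⟩⟩

def enc (a : A) (m : ℕ) : A ⊕ ℕ → Tm A :=
  Sum.elim atom fun i => mul (atom a) (add (mul (atom a) (D a (m + i))) (atom a))

def Good (a : A) (m i : ℕ) (o : Option (Tm (A ⊕ ℕ))) (q : Tm A) : Prop :=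
  (∀ b x, Step q b x → x = o.map (·.bind (enc a m)) ∨ ∃ d, x = some d ∧ Ch (m + i) d) ∧
    Step q a (o.map (·.bind (enc a m))) ∧ ∃ d, Step q a (some d) ∧ Ch (m + i) d

variable {a : A} {m : ℕ}

theorem good {i : ℕ} {o : Option (Tm (A ⊕ ℕ))} {y : Option (Tm A)}
    (h : Cont (enc a m) o (some (add (mul (atom a) (D a (m + i))) (atom a))) y) : ∃ q, y = some q ∧ Good a m i o q := by
  obtain ⟨q, rfl, f, g⟩ := h.som
  refine ⟨q, rfl, fun b x s => ?_, ?_, ?_⟩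
  · obtain ⟨z, h, c⟩ := f b x s
    cases h with
    | addL h => cases inv h; exact .inr (Ch.cont c (ch_D _ _))
    | addR h => cases h; exact .inl c.non
  · obtain ⟨x, s, c⟩ := g _ _ (.addR (.atom a)); exact c.non ▸ s
  · obtain ⟨x, s, c⟩ := g _ _ (.addL (.mul (.atom a)))
    obtain ⟨d, rfl, e⟩ := Ch.cont c (ch_D _ _)
    exact ⟨d, s, e⟩

theorem bw {s : Tm (A ⊕ ℕ)} {b : A} {x : Option (Tm A)} (h : Step (s.bind (enc a m)) b x) :
    (∃ o, Step s (.inl b) o ∧ x = o.map (·.bind (enc a m))) ∨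
      ∃ i o q, Step s (.inr i) o ∧ x = some q ∧ Good a m i o q := by
  obtain ⟨β | i, o, z, e, f, g⟩ := bwd h
  · cases f; exact .inl ⟨o, e, g.non⟩
  · cases inv f
    obtain ⟨q, h⟩ := good g
    exact .inr ⟨i, o, q, e, h⟩

theorem fw1 {s : Tm (A ⊕ ℕ)} {b : A} {o : Option (Tm (A ⊕ ℕ))} (h : Step s (.inl b) o) :
    Step (s.bind (enc a m)) b (o.map (·.bind (enc a m))) :=
  (fwd (σ := enc a m) h (.atom b)).elim fun _ e => e.2.non ▸ e.1

theorem fw2 {s : Tm (A ⊕ ℕ)} {i : ℕ} {o : Option (Tm (A ⊕ ℕ))} (h : Step s (.inr i) o) :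
    ∃ q, Step (s.bind (enc a m)) a (some q) ∧ Good a m i o q := by
  obtain ⟨x, s, c⟩ := fwd (σ := enc a m) h (.mul (.atom a))
  obtain ⟨q, rfl, h⟩ := good c
  exact ⟨q, s, h⟩

theorem chS {S : Set (Tm (A ⊕ ℕ))} (hS : Cl S) (hm : ∀ s ∈ S, ∀ j, Ch j s → j < m) (j : ℕ) :
    ∀ s ∈ S, Ch j (s.bind (enc a m)) → Ch j s := by
  induction j using Nat.strong_induction_on with | _ j ih
  intro s hs h
  cases j with
  | zero =>
    rintro (b | i) o st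
    exacts [h _ _ (fw1 st), (fw2 st).elim fun _ e => h _ _ e.1]
  | succ j =>
    obtain ⟨b, x, st⟩ := h.1
    refine ⟨?_, ?_⟩
    · obtain ⟨o, e, -⟩ | ⟨i, o, -, e, -⟩ := bw st <;> exact ⟨_, _, e⟩
    rintro (b | i) o st
    · obtain ⟨q, e, c⟩ := h.2 _ _ (fw1 st)
      cases o <;> cases e
      exact ⟨_, rfl, ih j (by omega) _ (hS _ hs _ _ st) c⟩
    · obtain ⟨q, st', -, g, d, f, e⟩ := fw2 (a := a) (m := m) st
      obtain ⟨_, ⟨⟩, c⟩ := h.2 _ _ st'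
      cases j with
      | zero => exact (c _ _ g).elim
      | succ j =>
        obtain ⟨_, ⟨⟩, c1⟩ := c.2 _ _ f
        obtain ⟨q, e', c2⟩ := c.2 _ _ g
        cases o <;> cases e'
        have := hm _ (hS _ hs _ _ st) _ (ih j (by omega) _ (hS _ hs _ _ st) c2)
        have := c1.uniq e
        omega

theorem valid_sim [Nonempty A] {t u : Tm (A ⊕ ℕ)} (h : Valid t u) :
    ∃ S : Set (Tm (A ⊕ ℕ)), S.Finite ∧ ∃ R, Sim R ∧ R t u ∧ ∀ x y, R x y → y ∈ S := by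
  obtain ⟨a⟩ := ‹Nonempty A›
  obtain ⟨S, f, ht, hu, hS⟩ : ∃ S : Set (Tm (A ⊕ ℕ)), S.Finite ∧ t ∈ S ∧ u ∈ S ∧ Cl S := by
    obtain ⟨S, a, b, c⟩ := fin t; obtain ⟨T, d, e, f⟩ := fin u
    exact ⟨S ∪ T, a.union d, .inl b, .inr e, fun s h x y st => h.imp (c _ · _ _ st) (f _ · _ _ st)⟩
  obtain ⟨m, hm⟩ : ∃ m, ∀ s ∈ S, ∀ j, Ch j s → j < m := by
    obtain ⟨m, hm⟩ := (f.biUnion (t := fun s => {j | Ch j s}) fun s _ =>
      Set.Subsingleton.finite fun _ a _ b => Ch.uniq a b).bddAbove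
    exact ⟨m + 1, fun s hs j c => Nat.lt_succ_of_le (hm (Set.mem_biUnion hs c))⟩
  obtain ⟨R, hR, r⟩ := bisim_iff.1 (h fun i => enc a m (.inr i))
  have n1 {s i} (hs : s ∈ S) (c : Ch (m + i) (s.bind (enc a m))) : False := by
    have := hm _ hs _ (chS hS hm _ _ hs c); omega
  have n2 {s i o q} (hs : s ∈ S) (g : Good a m i o q) (r : R q (s.bind (enc a m))) : False := by
    obtain ⟨d, st, c⟩ := g.2.2
    obtain ⟨_, st', ⟨r⟩⟩ := hR.2 _ _ r _ _ st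
    have c := c.sim hR r
    obtain ⟨o, e, f⟩ | ⟨j, o, _, e, ⟨⟩, -, g, d, f, c'⟩ := bw st'
    · cases o <;> cases f
      exact n1 (hS _ hs _ _ e) c
    · generalize m + i = k at c
      cases k with
      | zero => exact c _ _ g
      | succ k =>
        obtain ⟨_, ⟨⟩, c1⟩ := c.2 _ _ f
        obtain ⟨q, e', c2⟩ := c.2 _ _ g
        cases o <;> cases e'
        exact n1 (hS _ hs _ _ e) (c1.uniq c' ▸ c2)
  have rel {x y β β' o o'} (hx : x ∈ S) (hy : y ∈ S) (s : Step x β o) (s' : Step y β' o')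
      (r : Option.Rel R (o.map (·.bind (enc a m))) (o'.map (·.bind (enc a m)))) :
      Option.Rel (fun x y => x ∈ S ∧ y ∈ S ∧ R (x.bind (enc a m)) (y.bind (enc a m))) o o' := by
    cases o <;> cases o' <;> cases r
    exacts [.none, .some ⟨hS _ hx _ _ s, hS _ hy _ _ s', ‹_›⟩]
  refine ⟨S, f, fun x y => x ∈ S ∧ y ∈ S ∧ R (x.bind (enc a m)) (y.bind (enc a m)),
    ⟨fun x y e => ⟨e.2.1, e.1, hR.1 _ _ e.2.2⟩, ?_⟩, ⟨ht, hu, r⟩, fun _ _ e => e.2.1⟩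
  rintro x y ⟨hx, hy, r⟩ (b | i) o st
  · obtain ⟨z, st', r⟩ := hR.2 _ _ r _ _ (fw1 st)
    obtain ⟨o', e, rfl⟩ | ⟨j, o', q, e, rfl, g⟩ := bw st'
    · exact ⟨o', e, rel hx hy st e r⟩
    · cases o <;> cases r
      exact (n2 (hS _ hx _ _ st) g (hR.1 _ _ ‹_›)).elim
  · obtain ⟨q, st1, g⟩ := fw2 (a := a) (m := m) st
    obtain ⟨_, st', ⟨r⟩⟩ := hR.2 _ _ r _ _ st1
    obtain ⟨o', e, f⟩ | ⟨j, o', q', e, ⟨⟩, g'⟩ := bw st'
    · cases o' <;> cases f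
      exact (n2 (hS _ hy _ _ e) g r).elim
    obtain ⟨d, s1, c⟩ := g.2.2
    obtain ⟨_, s2, ⟨r2⟩⟩ := hR.2 _ _ r _ _ s1
    obtain f | ⟨_, ⟨⟩, c'⟩ := g'.1 _ _ s2
    · cases o' <;> cases f
      exact (n1 (hS _ hy _ _ e) (c.sim hR r2)).elim
    obtain rfl : i = j := by have := (c.sim hR r2).uniq c'; omega
    obtain ⟨z, s3, r3⟩ := hR.2 _ _ r _ _ g.2.1
    obtain rfl | ⟨_, rfl, c'⟩ := g'.1 _ _ s3
    · exact ⟨o', e, rel hx hy st e r3⟩
    · cases o <;> cases r3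
      exact (n1 (hS _ hx _ _ st) (c'.sim hR (hR.1 _ _ ‹_›))).elim

end Pool.Agent.H.MP_f6b51f_lc
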