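import Pool.Agent.H.MP_f6b51f_lc.B

set_option autoImplicit false
open Pointwise

namespace Pool.Agent.H.MP_f6b51f_lc
open Tm
variable {B C : Type}

section
variable {M : Type} [Monoid M] {k : B → Set M}

inductive Run (k : B → Set M) : Option (Tm B) → M → Option (Tm B) → Prop
  | nil (o : Option (Tm B)) : Run k o 1 o
  | cons {s : Tm B} {b : B} {o o' : Option (Tm B)} {h g : M} :
      Step s b o → h ∈ k b → Run k o g o' → Run k (some s) (h * g) o'

theorem Run.trans {x y z : Option (Tm B)} {g h : M} (a : Run k x g y) (b : Run k y h z) : Run k x (g * h) z := by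
  induction a with
  | nil => rwa [one_mul]
  | cons s e _ ih => rw [mul_assoc]; exact .cons s e (ih b)

theorem Run.lift {x y : Option (Tm B)} {g : M} (a : Run k x g y) (q : Tm B) :
    Run k (some (seq x q)) g (some (seq y q)) := by
  induction a with
  | nil => exact .nil _
  | cons s e _ ih => exact .cons (.mul s) e ih

theorem Run.sim {R : Tm B → Tm B → Prop} (hR : Sim R) {x y x' : Option (Tm B)} {g : M} (a : Run k x g y)
    (r : Option.Rel R x x') : ∃ y', Run k x' g y' ∧ Option.Rel R y y' := by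
  induction a generalizing x' with
  | nil => exact ⟨_, .nil _, r⟩
  | cons s e _ ih =>
    cases r with | some r =>
    obtain ⟨o, s', r⟩ := hR.2 _ _ r _ _ s
    exact (ih r).imp fun y f => ⟨.cons s' e f.1, f.2⟩

theorem Run.mul {x y : Option (Tm B)} {g : M} (a : Run k x g y) {p q : Tm B} (e : x = some (mul p q)) :
    (∃ p', Run k (some p) g (some p') ∧ y = some (mul p' q)) ∨
      ∃ g1 g2, Run k (some p) g1 none ∧ Run k (some q) g2 y ∧ g = g1 * g2 := by
  induction a generalizing p with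
  | nil => exact .inl ⟨p, .nil _, e⟩
  | cons s f r ih =>
    cases e; cases s with | @mul _ _ _ o s =>
    cases o with
    | none => exact .inr ⟨_, _, .cons s f (.nil _), r, by simp⟩
    | some p' =>
      obtain ⟨p', a, b⟩ | ⟨g1, g2, a, b, c⟩ := ih rfl
      exacts [.inl ⟨p', .cons s f a, b⟩, .inr ⟨_, _, .cons s f a, b, by rw [c, mul_assoc]⟩]

theorem Run.star {p q : Tm B} {H : Submonoid M} (hH : ∀ g, Run k (some p) g none → g ∈ H)
    {x y : Option (Tm B)} {g : M} (a : Run k x g y) : ∀ o, x = some (seq o (star p q)) →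
    (∃ p', Run k o g (some p') ∧ y = some (Tm.mul p' (star p q))) ∨ ∃ g1, ∃ κ ∈ H, ∃ g', Run k o g1 none ∧
      g = g1 * κ * g' ∧ ((y = some (star p q) ∧ g' = 1) ∨
        (∃ p', Run k (some p) g' (some p') ∧ y = some (Tm.mul p' (star p q))) ∨ Run k (some q) g' y) := by
  induction a with
  | nil =>
    rintro (_ | p') e
    exacts [.inr ⟨1, 1, one_mem _, 1, .nil _, by simp, .inl ⟨e, rfl⟩⟩, .inl ⟨p', .nil _, e⟩]
  | cons s f r ih =>
    rintro (_ | p') ⟨⟩
    · refine .inr ⟨1, ?_⟩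
      cases s with
      | starR s => exact ⟨1, one_mem _, _, .nil _, by simp, .inr (.inr (.cons s f r))⟩
      | starL s =>
        obtain ⟨p', a, b⟩ | ⟨g1, κ, hκ, g', a, b, c⟩ := ih _ rfl
        · exact ⟨1, one_mem _, _, .nil _, by simp, .inr (.inl ⟨p', .cons s f a, b⟩)⟩
        · exact ⟨_, mul_mem (hH _ (.cons s f a)) hκ, g', .nil _, by simp [b, mul_assoc], c⟩
    · cases s with | mul s =>
      obtain ⟨p', a, b⟩ | ⟨g1, κ, hκ, g', a, b, c⟩ := ih _ rfl
      exacts [.inl ⟨p', .cons s f a, b⟩, .inr ⟨_, κ, hκ, g', .cons s f a, by simp [b, mul_assoc], c⟩]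

theorem core {R : Tm B → Tm B → Prop} (hR : Sim R) {S : Set (Tm B)} (hS : S.Finite) (hr : ∀ x y, R x y → y ∈ S)
    {s s' : Tm B} (r : R s s') {W : Submonoid M} (hW : ∀ w ∈ W, Run k (some s) w (some s)) :
    ∃ c, ∃ w ∈ W, Run k (some s') w (some c) ∧ ∃ ρ : Tm B → M, ∀ w ∈ W, ∃ c' ∈ S, ρ c' ∈ W ∧
      Run k (some c) (w * ρ c') (some c) := by
  let F (c : Tm B) : Set (Tm B) := {c' | R s c' ∧ ∃ w ∈ W, Run k (some c) w (some c')}
  have f c : (F c).Finite := hS.subset fun _ h => hr _ _ h.1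
  have t {c c'} (h : c' ∈ F c) : F c' ⊆ F c := fun _ ⟨a, w, b, e⟩ =>
    h.2.elim fun w' e' => ⟨a, _, mul_mem e'.1 b, e'.2.trans e⟩
  obtain ⟨c, hc, m⟩ := Set.exists_min_image (F s') (fun c => (F c).ncard) (f _) ⟨s', r, 1, one_mem _, .nil _⟩
  have : ∀ c', ∃ ρ, c' ∈ F c → ρ ∈ W ∧ Run k (some c') ρ (some c) := fun c' => by
    by_cases h : c' ∈ F c
    · have : c ∈ F c' := Set.eq_of_subset_of_ncard_le (t h) (m _ (t hc h)) (f _) ▸ ⟨hc.1, 1, one_mem _, .nil _⟩
      exact this.2.imp fun _ e _ => e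
    · exact ⟨1, fun e => (h e).elim⟩
  choose ρ hρ using this
  obtain ⟨w, a, b⟩ := hc.2
  refine ⟨c, w, a, b, ρ, fun w hw => ?_⟩
  obtain ⟨_, e, ⟨r⟩⟩ := (hW w hw).sim hR (.some hc.1)
  have := hρ _ ⟨r, w, hw, e⟩
  exact ⟨_, hr _ _ r, this.1, e.trans this.2⟩

theorem run_iff {x y : Option (Tm B)} {g : M} : Run k x g y ↔ ∃ m, Run (fun b => {k b}) x m y ∧ g ∈ m := by
  refine ⟨fun h => ?_, ?_⟩
  · induction h with
    | nil => exact ⟨1, .nil _, rfl⟩
    | cons s e _ ih => exact ih.elim fun m f => ⟨_, .cons s rfl f.1, Set.mul_mem_mul e f.2⟩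
  · rintro ⟨m, h, e⟩
    induction h generalizing g with
    | nil => cases e; exact .nil _
    | cons s f _ ih => cases f; obtain ⟨a, b, c, d, rfl⟩ := e; exact .cons s b (ih d)

theorem Run.pow {x y : Option (Tm B)} {g z : M} (a : Run k x g y)
    (h : ∀ s, x = some s → ∀ b ∈ s.atoms, ∀ g ∈ k b, g = 1 ∨ g = z) : ∃ j, g = z ^ j := by
  induction a with
  | nil => exact ⟨0, by simp⟩
  | cons s e _ ih =>
    obtain ⟨j, rfl⟩ := ih fun s' f b c => h _ rfl b (s.atoms.2 _ f c)
    obtain rfl | rfl := h _ rfl _ s.atoms.1 _ e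
    exacts [⟨j, one_mul _⟩, ⟨j + 1, (pow_succ' _ _).symm⟩]

theorem Run.atoms {x y : Option (Tm B)} {g : M} (a : Run k x g y) :
    ∀ s s', x = some s → y = some s' → s'.atoms ⊆ s.atoms := by
  induction a with
  | nil => rintro _ _ rfl ⟨⟩; rfl
  | @cons _ _ o _ _ _ s _ r ih =>
    rintro _ _ ⟨⟩ rfl
    cases o with
    | none => cases r
    | some s' => exact (ih _ _ rfl rfl).trans (s.atoms.2 _ rfl)

theorem Run.mono {p q : Tm B} (h : ∀ b o, Step p b o → Step q b o) {g : M} (a : Run k (some p) g none) :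
    Run k (some q) g none := by
  cases a with | cons s e r => exact .cons (h _ _ s) e r
end

variable {G : Type} [Group G] (N : Subgroup G)

def K (k : B → Set G) : Tm B → Set G
  | atom b => k b
  | delta => ∅
  | add p q => K k p ∪ K k q
  | mul p q => K k p * K k q
  | .star p q => (Subgroup.closure (K k p) : Set G) * K k q

def V (k : B → Set G) (v : B → Prop) : Tm B → Prop
  | atom b => v b
  | delta => False
  | add p q => V k v p ∨ V k v q
  | mul p q => V k v p ∨ (K k p).Nonempty ∧ V k v q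
  | .star p q => V k v p ∨ V k v q ∨ N ≤ Subgroup.closure (K k p)

theorem K_bind (k : C → Set G) (τ : B → Tm C) (t : Tm B) : K k (t.bind τ) = K (fun b => K k (τ b)) t := by
  induction t <;> simp [K, Tm.bind, *]

theorem V_bind (k : C → Set G) (v : C → Prop) (τ : B → Tm C) (t : Tm B) :
    V N k v (t.bind τ) ↔ V N (fun b => K k (τ b)) (fun b => V N k v (τ b)) t := by
  induction t <;> simp [V, K_bind, Tm.bind, *]

variable [Finite G] {k : B → Set G} {v : B → Prop}

theorem loop {p q : Tm B} (h : ∀ g ∈ K k p, Run k (some p) g none) {g : G} (e : g ∈ Subgroup.closure (K k p)) :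
    Run k (some (star p q)) g (some (star p q)) := by
  rw [← Subgroup.mem_toSubmonoid, Subgroup.closure_toSubmonoid_of_finite] at e
  induction e using Submonoid.closure_induction with
  | one => exact .nil _
  | mul _ _ _ _ a b => exact a.trans b
  | mem g e =>
    have := h g e; clear e
    cases this with | cons s f r => exact .cons (.starL s) f (r.lift _)

theorem K_iff {t : Tm B} {g : G} : g ∈ K k t ↔ Run k (some t) g none := by
  induction t generalizing g with
  | atom b =>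
    refine ⟨fun h => mul_one g ▸ .cons (.atom b) h (.nil _), fun h => ?_⟩
    cases h with | cons s e r => cases s; cases r; rwa [mul_one]
  | delta => exact ⟨False.elim, fun h => by cases h with | cons s => cases s⟩
  | add p q hp hq =>
    refine ⟨fun h => h.elim (fun h => (hp.1 h).mono fun _ _ => .addL) fun h => (hq.1 h).mono fun _ _ => .addR,
      fun h => ?_⟩
    cases h with | cons s e r =>
    cases s with
    | addL s => exact .inl (hp.2 (.cons s e r))
    | addR s => exact .inr (hq.2 (.cons s e r))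
  | mul p q hp hq =>
    refine ⟨fun ⟨a, b, c, d, e⟩ => e ▸ ((hp.1 b).lift q).trans (hq.1 d), fun h => ?_⟩
    obtain ⟨_, -, ⟨⟩⟩ | ⟨a, b, c, d, rfl⟩ := h.mul rfl
    exact Set.mul_mem_mul (hp.2 c) (hq.2 d)
  | star p q hp hq =>
    refine ⟨fun ⟨a, b, c, d, e⟩ => e ▸ (loop (fun _ => hp.1) b).trans ((hq.1 d).mono fun _ _ => .starR), fun h => ?_⟩
    obtain ⟨_, -, ⟨⟩⟩ | ⟨a, κ, b, c, d, rfl, ⟨⟨⟩, -⟩ | ⟨_, -, ⟨⟩⟩ | e⟩ :=
      h.star (H := (Subgroup.closure (K k p)).toSubmonoid) (fun _ e => Subgroup.subset_closure (hp.2 e)) none rfl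
    cases d
    exact Set.mul_mem_mul ((one_mul κ).symm ▸ b) (hq.2 e)

end Pool.Agent.H.MP_f6b51f_lc
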