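import Pool.Agent.H.MP_f6b51f_lc.C

set_option autoImplicit false
open Pointwise

namespace Pool.Agent.H.MP_f6b51f_lc
open Tm
variable {A B : Type} {G : Type} [Group G] (N : Subgroup G) (k : B → Set G) (v : B → Prop)

def Bad (s : Tm B) : Prop := (∃ b o, Step s b o ∧ v b) ∨ ∀ h ∈ N, Run k (some s) h (some s)
def SV (t : Tm B) : Prop := ∃ g s, Run k (some t) g (some s) ∧ Bad N k v s

variable {N k v}

theorem SV.pos (hN : N ≠ ⊥) {t : Tm B} (h : SV N k v t) : ∃ b o, Step t b o ∧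
    (v b ∨ ∃ h ∈ k b, ∃ g s, Run k o g (some s) ∧ Bad N k v s) := by
  obtain ⟨g, s, r, e⟩ := h
  cases r with
  | cons a b c => exact ⟨_, _, a, .inr ⟨_, b, _, _, c, e⟩⟩
  | nil =>
    obtain ⟨b, o, a, c⟩ | f := id e
    · exact ⟨b, o, a, .inl c⟩
    obtain ⟨⟨h, a⟩, c⟩ := Subgroup.ne_bot_iff_exists_ne_one.1 hN
    have := f h a
    replace c : h ≠ 1 := fun x => c (Subtype.ext x)
    clear a
    cases this with
    | nil => exact (c rfl).elim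
    | cons a b c => exact ⟨_, _, a, .inr ⟨_, b, _, _, c, e⟩⟩

theorem SV.of {t : Tm B} {b : B} {o : Option (Tm B)} (s : Step t b o)
    (h : v b ∨ ∃ h ∈ k b, ∃ g s, Run k o g (some s) ∧ Bad N k v s) : SV N k v t :=
  h.elim (fun h => ⟨1, t, .nil _, .inl ⟨b, o, s, h⟩⟩) fun ⟨_, a, _, _, c, d⟩ => ⟨_, _, .cons s a c, d⟩

theorem SV.mono (hN : N ≠ ⊥) {p q : Tm B} (e : ∀ b o, Step p b o → Step q b o) (h : SV N k v p) : SV N k v q :=
  (h.pos hN).elim fun _ ⟨_, s, h⟩ => .of (e _ _ s) h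

theorem SV.mul {p : Tm B} (h : SV N k v p) (q : Tm B) : SV N k v (Tm.mul p q) :=
  h.elim fun g ⟨s, a, b⟩ => ⟨g, Tm.mul s q, a.lift q, b.imp (fun ⟨_, _, c, d⟩ => ⟨_, _, .mul c, d⟩)
    fun b h e => (b h e).lift q⟩

theorem V_iff [Finite G] [n : N.Normal] (hN : N ≠ ⊥) {t : Tm B} : V N k v t ↔ SV N k v t := by
  induction t with
  | atom b =>
    refine ⟨fun h => .of (.atom b) (.inl h), fun h => ?_⟩
    obtain ⟨_, _, s, h⟩ := h.pos hN
    cases s; obtain h | ⟨_, _, _, _, ⟨⟩, _⟩ := h; exact h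
  | delta => exact ⟨False.elim, fun h => (h.pos hN).elim fun _ ⟨_, s, _⟩ => by cases s⟩
  | add p q hp hq =>
    refine ⟨fun h => h.elim (fun h => (hp.1 h).mono hN fun _ _ => .addL) fun h => (hq.1 h).mono hN fun _ _ => .addR,
      fun h => ?_⟩
    obtain ⟨_, _, s, h⟩ := h.pos hN
    cases s with
    | addL s => exact .inl (hp.2 (.of s h))
    | addR s => exact .inr (hq.2 (.of s h))
  | mul p q hp hq =>
    refine ⟨fun h => h.elim (fun h => (hp.1 h).mul q) fun ⟨⟨g, a⟩, h⟩ => (hq.1 h).elim fun _ ⟨s, b, c⟩ =>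
      ⟨_, s, ((K_iff.1 a).lift q).trans b, c⟩, fun ⟨g, s, r, e⟩ => ?_⟩
    obtain ⟨p', a, ⟨⟩⟩ | ⟨a, b, c, d, -⟩ := r.mul rfl
    swap; · exact .inr ⟨⟨_, K_iff.2 c⟩, hq.2 ⟨_, _, d, e⟩⟩
    by_contra! c
    obtain ⟨_, _, s, f⟩ | f := id e
    · cases s with | mul s => exact c (.inl (hp.2 ⟨_, _, a, .inl ⟨_, _, s, f⟩⟩))
    refine c (.inl (hp.2 ⟨_, _, a, .inr fun h x => ?_⟩))
    obtain ⟨_, a, ⟨⟩⟩ | ⟨_, _, y, d, -⟩ := (f h x).mul rfl
    exacts [a, (c (.inr ⟨⟨_, K_iff.2 (a.trans y)⟩, hq.2 ⟨_, _, d, e⟩⟩)).elim]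
  | star p q hp hq =>
    refine ⟨?_, fun ⟨g, s, r, e⟩ => ?_⟩
    · rintro (h | h | h)
      · exact ((hp.1 h).mul _).mono hN fun _ _ s => by cases s with | mul s => exact .starL s
      · exact (hq.1 h).mono hN fun _ _ => .starR
      · exact ⟨1, _, .nil _, .inr fun g e => loop (fun _ => K_iff.1) (h e)⟩
    have st {g y} (r : Run k (some (star p q)) g y) := r.star (H := (Subgroup.closure (K k p)).toSubmonoid)
      (fun _ e => Subgroup.subset_closure (K_iff.2 e)) none rfl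
    by_contra! c
    have cp := mt hp.2 fun h => c (.inl h); have cq := mt hq.2 fun h => c (.inr (.inl h))
    refine c (.inr (.inr fun h x => ?_))
    obtain ⟨_, ⟨⟩, -⟩ | ⟨_, -, -, f, -, -, ⟨⟨⟩, -⟩ | ⟨p', a, ⟨⟩⟩ | a⟩ := st r
    · obtain ⟨_, _, s, e⟩ | e := id e
      · cases s with
        | starL s => exact (cp (.of s (.inl e))).elim
        | starR s => exact (cq (.of s (.inl e))).elim
      obtain ⟨_, ⟨⟩, -⟩ | ⟨_, κ, b, f, ⟨⟩, rfl, ⟨-, rfl⟩ | ⟨p', a, ⟨⟩⟩ | a⟩ := st (e h x)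
      · simpa using b
      · exact (cq ⟨_, _, a, .inr e⟩).elim
    · obtain ⟨_, _, s, e⟩ | l := id e
      · cases s with | mul s => exact (cp ⟨_, _, a, .inl ⟨_, _, s, e⟩⟩).elim
      obtain ⟨z, hz⟩ : ∃ z, Run k (some p') z none := by_contra fun d => cp ⟨_, _, a, .inr fun h x => by
        obtain ⟨_, a, ⟨⟩⟩ | ⟨_, _, y, -⟩ := (l h x).mul rfl
        exacts [a, (d ⟨_, y⟩).elim]⟩
      have m {g} (r : Run k (some p) g none) : g ∈ Subgroup.closure (K k p) := Subgroup.subset_closure (K_iff.2 r)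
      have : f * (f⁻¹ * h * f) * z ∈ Subgroup.closure (K k p) := by
        obtain ⟨_, b, ⟨⟩⟩ | ⟨g1, _, y, r, w⟩ := (l _ (n.conj_mem' h x f)).mul rfl
        · exact m ((a.trans b).trans hz)
        obtain ⟨_, ⟨⟩, -⟩ | ⟨_, κ, b, g0, ⟨⟩, rfl, ⟨⟨⟩, -⟩ | ⟨_, u, ⟨⟩⟩ | u⟩ := st r
        · have := mul_mem (mul_mem (m (a.trans y)) b) (m (u.trans hz))
          rw [w]; simpa [mul_assoc] using this
        · exact (cq ⟨_, _, u, e⟩).elim
      simpa [mul_assoc] using mul_mem this (inv_mem (m (a.trans hz)))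
    · exact (cq ⟨_, _, a, e⟩).elim

def Cs (k : B → Set G) (s : Tm B) [Finite G] : Subgroup G where
  carrier := {g | Run k (some s) g (some s)}
  one_mem' := .nil _
  mul_mem' := Run.trans
  inv_mem' := fun {g} h => by
    have : ∀ j, Run k (some s) (g ^ j) (some s) := fun j => by
      induction j with
      | zero => rw [pow_zero]; exact .nil _
      | succ j ih => rw [pow_succ]; exact ih.trans h
    have e := orderOf_pos g
    rw [inv_eq_of_mul_eq_one_right (b := g ^ (orderOf g - 1)) (by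
      rw [← pow_succ', Nat.sub_add_cancel e, pow_orderOf_eq_one])]
    exact this _

theorem inv_V [Finite G] {R : Tm B → Tm B → Prop} (hR : Sim R) {S : Set (Tm B)} (hS : S.Finite)
    (hr : ∀ x y, R x y → y ∈ S) {t u : Tm B} (r : R t u) (hN : N ≠ ⊥) (hp : N ≤ ⁅N, N⁆)
    (h : (∀ (H : Subgroup G) (ρ : Tm B → G), (∀ g ∈ N, ∃ c ∈ S, g * ρ c ∈ H) → N ≤ H) ∨
      ∃ z, ∀ b ∈ t.atoms, k b = 1 ∨ k b = z) (e : SV N k v t) : SV N k v u := by
  obtain ⟨g, s, a, e⟩ := e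
  obtain ⟨_, a', ⟨r'⟩⟩ := a.sim hR (.some r)
  obtain ⟨b, o, st, e⟩ | e := e
  · exact ⟨_, _, a', .inl ((hR.2 _ _ r' _ _ st).elim fun _ f => ⟨_, _, f.1, e⟩)⟩
  obtain h | ⟨z, h⟩ := h
  · obtain ⟨c, w, -, b, ρ, f⟩ := core hR hS hr r' (W := N.toSubmonoid) e
    exact ⟨_, c, a'.trans b, .inr (h (Cs k c) ρ fun g x => (f g x).imp fun _ y => ⟨y.1, y.2.2⟩)⟩
  have pw {m} (r : Run (fun b => {k b}) (some s) m (some s)) : ∃ j, m = z ^ j := r.pow fun _ x b y _ w => by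
    cases x; cases w; exact h b (a.atoms _ _ rfl rfl y)
  obtain ⟨c, w, ⟨⟨_, hw⟩, -⟩, b, ρ, f⟩ := core (k := fun b => {k b}) hR hS hr r'
    (W := ⟨⟨{m | m.Nonempty ∧ Run (fun b => {k b}) (some s) m (some s)}, fun x y => ⟨x.1.mul y.1, x.2.trans y.2⟩⟩,
      ⟨Set.one_nonempty, .nil _⟩⟩) fun _ e => e.2
  refine ⟨_, c, a'.trans (run_iff.2 ⟨_, b, hw⟩), .inr fun g x => (hp.trans (Subgroup.commutator_le.2 ?_) :
    N ≤ Cs k c) x⟩
  have pN (g) (x : g ∈ N) : ∃ j, g ∈ z ^ j := (run_iff.1 (e g x)).elim fun m y => (pw y.1).elim fun j w => ⟨j, w ▸ y.2⟩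
  obtain ⟨⟨g, x⟩, c1⟩ := Subgroup.ne_bot_iff_exists_ne_one.1 hN
  obtain ⟨m, y, hm⟩ := run_iff.1 (e g x)
  obtain ⟨c', -, ⟨-, y'⟩, r⟩ := f m ⟨⟨_, hm⟩, y⟩
  obtain ⟨i, rfl⟩ := pw y; obtain ⟨j, hj⟩ := pw y'
  have i0 : i ≠ 0 := by rintro rfl; exact c1 (Subtype.ext hm)
  rw [hj, ← pow_add] at r
  have sub : z ^ (i + j) ⊆ Cs k c := fun g x => run_iff.2 ⟨_, r, x⟩
  have sub l : z ^ ((i + j) * l) ⊆ Cs k c := by
    rw [pow_mul]
    induction l with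
    | zero => simp
    | succ l ih => rw [pow_succ]; exact Set.mul_subset_iff.2 fun _ a _ b => mul_mem (ih a) (sub b)
  intro x hx y hy
  obtain ⟨a, ha⟩ := pN x hx; obtain ⟨b, hb⟩ := pN y hy
  obtain ⟨l, hl⟩ := Nat.exists_eq_add_one.2 (Nat.mul_pos (show 0 < i + j by omega) (Nat.card_pos (α := G)))
  have iv (g : G) : g⁻¹ = g ^ l := inv_eq_of_mul_eq_one_right (by
    rw [← pow_succ', ← hl, mul_comm, pow_mul, pow_card_eq_one', one_pow])
  apply sub (Nat.card G * (a + b))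
  rw [commutatorElement_def, iv, iv, ← mul_assoc, hl, show (l + 1) * (a + b) = a + b + a * l + b * l by ring]
  simp only [pow_add, pow_mul]
  exact Set.mul_mem_mul (Set.mul_mem_mul (Set.mul_mem_mul ha hb) (Set.pow_mem_pow ha)) (Set.pow_mem_pow hb)

end Pool.Agent.H.MP_f6b51f_lc
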