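import Pool.Agent.H.MP_f6b51f_lc.D

set_option autoImplicit false
open Pointwise Equiv

namespace Pool.Agent.H.MP_f6b51f_lc
open Tm
variable {A B : Type}

theorem st_iff {t : Tm B} {b : B} {o : Option (Tm B)} : Step t b o ↔ match t with
    | atom a => b = a ∧ o = none
    | delta => False
    | add p q => Step p b o ∨ Step q b o
    | mul p q => ∃ x, Step p b x ∧ o = some (seq x q)
    | .star p q => (∃ x, Step p b x ∧ o = some (seq x (.star p q))) ∨ Step q b o := by
  refine ⟨fun h => ?_, fun h => ?_⟩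
  · cases h
    exacts [⟨rfl, rfl⟩, .inl ‹_›, .inr ‹_›, ⟨_, ‹_›, rfl⟩, .inl ⟨_, ‹_›, rfl⟩, .inr ‹_›]
  · cases t with
    | atom => obtain ⟨rfl, rfl⟩ := h; exact .atom _
    | delta => cases h
    | add => exact h.elim .addL .addR
    | mul => obtain ⟨_, h, rfl⟩ := h; exact .mul h
    | star => obtain ⟨_, h, rfl⟩ | h := h; exacts [.starL h, .starR h]

def x : Tm (A ⊕ ℕ) := atom (.inr 0)
def y : Tm (A ⊕ ℕ) := atom (.inr 1)
def z : Tm (A ⊕ ℕ) := add x y
def c : ℕ → Tm (A ⊕ ℕ)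
  | 0 => z
  | j + 1 => mul (star y x) (c j)
def r : Tm (A ⊕ ℕ) := star (mul y z) x
def t (m : ℕ) : Tm (A ⊕ ℕ) := star (mul r (c m)) delta

theorem val (m : ℕ) : Valid (A := A) (t m) (star z delta) := fun σ => by
  let P (s : Tm (A ⊕ ℕ)) := s = t m ∨ s = star z delta ∨ s = mul (mul (mul z r) (c m)) (t m) ∨
    s = mul (mul r (c m)) (t m) ∨ ∃ j, s = mul (c j) (t m)
  have sx {b o} : Step (x (A := A)) b o ↔ b = .inr 0 ∧ o = none := st_iff
  have sy {b o} : Step (y (A := A)) b o ↔ b = .inr 1 ∧ o = none := st_iff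
  have sz {b o} : Step (z (A := A)) b o ↔ (b = .inr 0 ∨ b = .inr 1) ∧ o = none :=
    st_iff.trans (by simp only [z, sx, sy, or_and_right])
  have sm {p q : Tm (A ⊕ ℕ)} {b o} : Step (mul p q) b o ↔ ∃ x, Step p b x ∧ o = some (seq x q) := st_iff
  have sr {b o} : Step (r (A := A)) b o ↔ b = .inr 1 ∧ o = some (mul z r) ∨ b = .inr 0 ∧ o = none :=
    st_iff.trans (by simp [sm, sx, sy, seq, r])
  have H s (h : P s) b : (∀ o, Step s b o → (b = .inr 0 ∨ b = .inr 1) ∧ ∃ s', o = some s' ∧ P s') ∧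
      (b = .inr 0 ∨ b = .inr 1 → ∃ o, Step s b o) := by
    obtain rfl | rfl | rfl | rfl | ⟨_ | j, rfl⟩ := h
    · have {o} : Step (t (A := A) m) b o ↔ ∃ x, Step (mul r (c m)) b x ∧ o = some (seq x (t m)) :=
        st_iff.trans (or_iff_left (mt st_iff.1 id))
      constructor
      · simp only [this, sm, sr]; rintro _ ⟨_, ⟨_, ⟨rfl, rfl⟩ | ⟨rfl, rfl⟩, rfl⟩, rfl⟩ <;> simp [P, seq]
      · rintro (rfl | rfl) <;> simp [this, sm, sr]
    · have {o} : Step (star (z (A := A)) delta) b o ↔ ∃ x, Step z b x ∧ o = some (seq x (star z delta)) :=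
        st_iff.trans (or_iff_left (mt st_iff.1 id))
      simp +contextual [this, sz, P, seq]
    · simp +contextual [sm, sz, P, seq]
    · constructor
      · simp only [sm, sr]; rintro _ ⟨_, ⟨_, ⟨rfl, rfl⟩ | ⟨rfl, rfl⟩, rfl⟩, rfl⟩ <;> simp [P, seq]
      · rintro (rfl | rfl) <;> simp [sm, sr]
    · simp +contextual [sm, sz, P, seq, c]
    · have {o} : Step (star (y (A := A)) x) b o ↔ b = .inr 1 ∧ o = some (star y x) ∨ b = .inr 0 ∧ o = none :=
        st_iff.trans (by simp [sx, sy, seq])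
      constructor
      · simp only [sm, c, this]
        rintro _ ⟨_, ⟨_, ⟨rfl, rfl⟩ | ⟨rfl, rfl⟩, rfl⟩, rfl⟩
        exacts [⟨.inr rfl, _, rfl, .inr (.inr (.inr (.inr ⟨j + 1, rfl⟩)))⟩,
          ⟨.inl rfl, _, rfl, .inr (.inr (.inr (.inr ⟨j, rfl⟩)))⟩]
      · rintro (rfl | rfl) <;> simp [sm, c, this]
  refine sim_bind (R := fun p q => P p ∧ P q) ⟨fun _ _ => And.symm, fun p q h b o s => ?_⟩
    ⟨.inl rfl, .inr (.inl rfl)⟩ _
  obtain ⟨e, _, rfl, f⟩ := (H _ h.1 b).1 o s
  obtain ⟨o, s⟩ := (H _ h.2 b).2 e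
  obtain ⟨-, _, rfl, g⟩ := (H _ h.2 b).1 o s
  exact ⟨_, s, .some ⟨f, g⟩⟩

section
variable {m : ℕ} (hp : (m + 2).Prime) (h5 : 5 ≤ m + 2)

theorem ord : orderOf (finRotate (m + 2)) = m + 2 := by
  rw [isCycle_finRotate.orderOf, support_finRotate]; simp

include hp h5 in
theorem ev : finRotate (m + 2) ∈ alternatingGroup (Fin (m + 2)) := by
  rw [Perm.mem_alternatingGroup, sign_finRotate]
  exact Even.neg_one_pow (Nat.Odd.sub_odd (hp.odd_of_ne_two (by omega)) odd_one)

theorem mv (a : Fin (m + 2)) : finRotate (m + 2) a ≠ a := Perm.mem_support.1 (by simp [support_finRotate])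

include hp h5 in
theorem P2 {S : Set B} (hS : S.Finite) (h : S.ncard < m + 2) (H : Subgroup (Perm (Fin (m + 2)))) (ρ : B → Perm (Fin (m + 2)))
    (e : ∀ g ∈ alternatingGroup (Fin (m + 2)), ∃ c ∈ S, g * ρ c ∈ H) : alternatingGroup (Fin (m + 2)) ≤ H := by
  have k g (a : g ∈ alternatingGroup (Fin (m + 2))) : g ^ (m + 1).factorial ∈ H := by
    choose f hf e using fun i : ℕ => e _ (pow_mem a i)
    obtain ⟨i, a, j, b, c, d⟩ := Set.exists_ne_map_eq_of_ncard_lt_of_maps_to (s := Set.Iio (m + 2))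
      (by simpa using h) (fun i _ => hf i) hS
    wlog w : i < j generalizing i j
    · exact this j b i a c.symm d.symm (by omega)
    obtain ⟨l, hl⟩ := Nat.dvd_factorial (Nat.sub_pos_of_lt w) (show _ ≤ m + 1 by simp at b; omega)
    have := mul_mem (e j) (inv_mem (e i))
    rw [d, mul_inv_rev, mul_assoc, mul_inv_cancel_left, ← pow_sub _ w.le] at this
    rw [hl, pow_mul]; exact pow_mem this _
  refine (Perm.alternatingGroup_le_of_normal (by simpa using h5) ((Subgroup.nontrivial_iff_exists_ne_one _).2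
    ⟨finRotate (m + 2) ^ (m + 1).factorial, fun b => ?_, fun c => ?_⟩)).trans H.normalCore_le
  · rw [← conj_pow]; exact k _ (Subgroup.Normal.conj_mem inferInstance _ (ev hp h5) b)
  · rw [← orderOf_dvd_iff_pow_eq_one, ord, hp.dvd_factorial] at c; omega

def kk (m : ℕ) : A ⊕ ℕ → Set (Perm (Fin (m + 2))) :=
  Sum.elim 1 fun i => if i = 0 then {finRotate (m + 2)} else {swap 0 (finRotate (m + 2) 0)}

theorem fix {s : Set (Perm (Fin (m + 2)))} {a : Fin (m + 2)} (h : ∀ g ∈ s, g a = a) :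
    ∀ g ∈ Subgroup.closure s, g a = a := fun _ e =>
  (Subgroup.closure_le (MulAction.stabilizer _ a)).2 h e

theorem sw {j : ℕ} (h : j < m) : swap 0 (finRotate (m + 2) 0) ((finRotate (m + 2) ^ (j + 2)) 0) =
    (finRotate (m + 2) ^ (j + 2)) 0 := by
  have n {i} (a : 0 < i) (b : i < m + 2) : (finRotate (m + 2) ^ i) 0 ≠ 0 := fun c => by
    have := Nat.le_of_dvd a (ord ▸ orderOf_dvd_of_pow_eq_one ((isCycle_finRotate.pow_eq_one_iff' (mv 0)).2 c))
    omega
  refine swap_apply_of_ne_of_ne (n (by omega) (by omega)) fun c => n (i := j + 1) (by omega) (by omega) ?_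
  rw [pow_succ', Perm.mul_apply] at c
  exact (finRotate _).injective c

theorem Kz : K (kk (A := A) m) z = {finRotate (m + 2), swap 0 (finRotate (m + 2) 0)} := rfl

theorem Kc {j : ℕ} (h : j ≤ m) : ∀ g ∈ K (kk (A := A) m) (c j), g 0 = (finRotate (m + 2) ^ (j + 1)) 0 := by
  induction j with
  | zero => rintro g (rfl | rfl) <;> simp
  | succ j ih =>
    rintro _ ⟨_, ⟨κ, a, _, rfl, rfl⟩, g, b, rfl⟩
    simp only [Perm.mul_apply, ih (by omega) g b]
    rw [← Perm.mul_apply (finRotate _), ← pow_succ']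
    exact fix (by rintro _ rfl; exact sw h) κ a

include hp h5 in
theorem notV : ¬ V (alternatingGroup (Fin (m + 2))) (kk (A := A) m) (fun _ => False) (t m) := by
  have ng {s : Set (Perm (Fin (m + 2)))} {a} (h : ∀ g ∈ s, g a = a) :
      ¬ alternatingGroup (Fin (m + 2)) ≤ Subgroup.closure s := fun c => mv a (fix h _ (c (ev hp h5)))
  have vc j : ¬ V (alternatingGroup (Fin (m + 2))) (kk (A := A) m) (fun _ => False) (c j) := by
    induction j with
    | zero => simp [V, c, z, x, y]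
    | succ j ih =>
      rintro ((h | h | h) | h)
      exacts [h, h, ng (by rintro _ rfl; exact sw (j := 0) (by omega)) h, ih h.2]
  have yz : ∀ g ∈ K (kk (A := A) m) (mul y z), g 0 = 0 := by
    rintro _ ⟨_, rfl, _, rfl | rfl, rfl⟩ <;> simp
  rintro (((h | h | h) | h) | h | h)
  exacts [h.elim id (vc 0 ·.2), h, ng yz h, vc m h.2, h, ng (a := 0) (by
    rintro _ ⟨_, ⟨κ, a, _, rfl, rfl⟩, g, b, rfl⟩
    simp only [Perm.mul_apply, Kc le_rfl g b]
    rw [← Perm.mul_apply (finRotate _), ← pow_succ', show finRotate (m + 2) ^ (m + 1 + 1) = 1 from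
      orderOf_dvd_iff_pow_eq_one.1 (by rw [ord])]
    exact fix yz κ a) h]
end

theorem bind_id (t : Tm (A ⊕ ℕ)) : t.bind (Sum.elim (fun a => atom (.inl a)) fun i => atom (.inr i)) = t := by
  induction t with
  | atom b => cases b <;> rfl
  | _ => simp [Tm.bind, *]

end Pool.Agent.H.MP_f6b51f_lc
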